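import Pool.Agent.W830.RD.Stm
import Pool.Agent.H643R2.ChainDec

set_option autoImplicit false
set_option linter.unusedSectionVars false

namespace Pool.Agent.W371.RD.Block

open Pool.Agent.W830.RD
open Finset
open scoped Classical

noncomputable section

section add
variable {α : Type} [PartialOrder α]

theorem chn_filter {P : Finset α} {f : α → ℕ}
    (hc : ∀ a ∈ P, ∀ b ∈ P, f a = f b → a ≤ b ∨ b ≤ a) (j : ℕ) :
    Chn (P.filter fun x => f x = j) := by
  intro x hx y hy
  rw [mem_filter] at hx hy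
  exact hc x hx.1 y hy.1 (hx.2.trans hy.2.symm)

theorem filter_succ (P : Finset α) (f : α → ℕ) (j : ℕ) :
    (P.filter fun x => f x < j + 1) = (P.filter fun x => f x < j) ∪ P.filter fun x => f x = j := by
  ext x
  simp only [mem_union, mem_filter]
  constructor
  · rintro ⟨h1, h2⟩
    rcases Nat.lt_or_eq_of_le (Nat.lt_succ_iff.1 h2) with h | h
    · exact Or.inl ⟨h1, h⟩
    · exact Or.inr ⟨h1, h⟩
  · rintro (⟨h1, h2⟩ | ⟨h1, h2⟩)
    · exact ⟨h1, by omega⟩
    · exact ⟨h1, by omega⟩

theorem addD (hA : S_SADD) {N : ℕ} {D U : Finset α} (P : Finset α) (f : α → ℕ)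
    (hc : ∀ a ∈ P, ∀ b ∈ P, f a = f b → a ≤ b ∨ b ≤ a) (h : Sch N D U) (j : ℕ) :
    Sch (N + j) (D ∪ P.filter fun x => f x < j) U := by
  induction j with
  | zero =>
    have : (P.filter fun x => f x < 0) = ∅ := by
      ext x; simp
    rw [this, union_empty]; exact h
  | succ j ih =>
    have h1 := hA α (N + j) _ U (P.filter fun x => f x = j) ∅ ih (chn_filter hc j)
      (by intro x hx; simp at hx) (by intro d _ u hu; simp at hu)
    rw [union_empty, union_assoc, ← filter_succ] at h1
    exact h1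

theorem addU (hA : S_SADD) {N : ℕ} {D U : Finset α} (P : Finset α) (f : α → ℕ)
    (hc : ∀ a ∈ P, ∀ b ∈ P, f a = f b → a ≤ b ∨ b ≤ a) (h : Sch N D U) (j : ℕ) :
    Sch (N + j) D (U ∪ P.filter fun x => f x < j) := by
  induction j with
  | zero =>
    have : (P.filter fun x => f x < 0) = ∅ := by
      ext x; simp
    rw [this, union_empty]; exact h
  | succ j ih =>
    have h1 := hA α (N + j) D _ ∅ (P.filter fun x => f x = j) ih
      (by intro x hx; simp at hx) (chn_filter hc j) (by intro d hd; simp at hd)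
    rw [union_empty, union_assoc, ← filter_succ] at h1
    exact h1

theorem filter_all {P : Finset α} {f : α → ℕ} {g : ℕ} (hf : ∀ a ∈ P, f a < g) :
    (P.filter fun x => f x < g) = P := by
  ext x
  simp only [mem_filter, and_iff_left_iff_imp]
  exact hf x

end add

section main
variable {α : Type} [Fintype α] [PartialOrder α]

theorem case1 (hS : S_SLOTS) (N0 : ℕ) (h : ∀ A : Finset α, Anti A → A.card ≤ N0) :
    Rlz (fun x y : α => x ≤ y) (N0 + 2) := by
  obtain ⟨f, hf, hc⟩ := Pool.Agent.H643R2.ChainDec.dilworth_finset _ N0 (univ : Finset α) rfl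
    (fun S _ hS => h S hS)
  refine hS α N0 univ ∅ ⟨fun x y _ _ => mem_univ x, fun x y _ h => absurd h (notMem_empty x),
    disjoint_empty_right _, fun a b h => absurd (mem_univ a) h⟩ ?_
  refine ⟨(Multiset.range N0).map fun i => ((univ.filter fun x => f x = i), (∅ : Finset α)), ∅, ∅,
    by simp, ?_, ?_, ?_, ?_, ?_, ?_⟩
  · intro p hp
    obtain ⟨i, _, rfl⟩ := Multiset.mem_map.1 hp
    exact ⟨subset_univ _, subset_rfl, chn_filter hc i, by intro x hx; simp at hx⟩
  · intro x _
    refine ⟨_, Multiset.mem_map.2 ⟨f x, Multiset.mem_range.2 (hf x (mem_univ x)), rfl⟩, ?_⟩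
    simp
  · intro x hx; simp at hx
  · intro x hx; simp at hx
  · intro p hp d _ u hu
    obtain ⟨i, _, rfl⟩ := Multiset.mem_map.1 hp
    simp at hu
  · have : Multiset.countP Mixed ((Multiset.range N0).map fun i =>
        ((univ.filter fun x => f x = i), (∅ : Finset α))) = 0 := by
      rw [Multiset.countP_eq_zero]
      intro p hp
      obtain ⟨i, _, rfl⟩ := Multiset.mem_map.1 hp
      rintro ⟨d, _, u, hu, _⟩
      simp at hu
    rw [this]
    exact Nat.zero_le _

/-- a maximal family of disjoint antichains -/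
theorem family (K g : ℕ) (hg : 1 ≤ g)
    (hno : ¬ ∃ A : Fin K → Finset α, (∀ i, Anti (A i) ∧ (A i).card = g) ∧
      ∀ i j, i ≠ j → Disjoint (A i) (A j)) (W : Finset α) :
    ∃ F : Finset (Finset α), F.card ≤ K ∧ (∀ B ∈ F, B ⊆ W ∧ Anti B ∧ B.card = g) ∧
      ∀ S : Finset α, S ⊆ W \ F.biUnion id → Anti S → S.card ≤ g := by
  let T : Finset (Finset (Finset α)) := univ.filter fun F =>
    (∀ B ∈ F, B ⊆ W ∧ Anti B ∧ B.card = g) ∧ ∀ B ∈ F, ∀ B' ∈ F, B ≠ B' → Disjoint B B'
  have hT : T.Nonempty := ⟨∅, by simp [T]⟩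
  obtain ⟨F, hF, hmax⟩ := exists_max_image T card hT
  rw [mem_filter] at hF
  obtain ⟨-, hF1, hF2⟩ := hF
  refine ⟨F, ?_, hF1, ?_⟩
  · by_contra hlt
    push Not at hlt
    apply hno
    refine ⟨fun i => ((F.equivFin.symm (Fin.castLE hlt.le i)) : Finset α), fun i => ?_,
      fun i j hij => ?_⟩
    · exact (hF1 _ (F.equivFin.symm (Fin.castLE hlt.le i)).2).2
    · refine hF2 _ (F.equivFin.symm (Fin.castLE hlt.le i)).2 _
        (F.equivFin.symm (Fin.castLE hlt.le j)).2 fun h => hij ?_
      have h1 := F.equivFin.symm.injective (Subtype.ext h)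
      exact Fin.castLE_injective _ h1
  · intro S hS hSA
    by_contra hlt
    push Not at hlt
    obtain ⟨S', hS', hcard⟩ := exists_subset_card_eq hlt.le
    have hdis : ∀ B ∈ F, Disjoint S' B := by
      intro B hB
      rw [disjoint_left]
      intro x hx hxB
      have h1 := hS (hS' hx)
      rw [mem_sdiff] at h1
      exact h1.2 (mem_biUnion.2 ⟨B, hB, hxB⟩)
    have hnot : S' ∉ F := by
      intro h
      have h1 := hdis S' h
      rw [disjoint_self] at h1
      have : S'.card = 0 := by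
        have h2 : S' = ∅ := h1
        rw [h2]; rfl
      omega
    have hmem : insert S' F ∈ T := by
      rw [mem_filter]
      refine ⟨mem_univ _, fun B hB => ?_, fun B hB B' hB' hne => ?_⟩
      · rcases mem_insert.1 hB with h | h
        · rw [h]
          exact ⟨fun x hx => (mem_sdiff.1 (hS (hS' hx))).1,
            fun x hx y hy => hSA x (hS' hx) y (hS' hy), hcard⟩
        · exact hF1 B h
      · rcases mem_insert.1 hB with h | h
        · rcases mem_insert.1 hB' with h' | h'
          · exact absurd (h.trans h'.symm) hne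
          · rw [h]; exact hdis B' h'
        · rcases mem_insert.1 hB' with h' | h'
          · rw [h']; exact (hdis B h).symm
          · exact hF2 B h B' h' hne
    have := hmax _ hmem
    rw [card_insert_of_notMem hnot] at this
    omega

theorem enum (S : Finset α) : ∃ f : Fin S.card → α, Function.Injective f ∧
    univ.image f = S := by
  refine ⟨fun i => (S.equivFin.symm i : α), fun i j h => S.equivFin.symm.injective (Subtype.ext h),
    ?_⟩
  ext x
  simp only [mem_image, mem_univ, true_and]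
  constructor
  · rintro ⟨i, rfl⟩
    exact (S.equivFin.symm i).2
  · intro hx
    exact ⟨S.equivFin ⟨x, hx⟩, by simp⟩

theorem chain_card {F : Finset (Finset α)} {C : Finset α} (hF : ∀ B ∈ F, Anti B)
    (hC : C ⊆ F.biUnion id) (hch : Chn C) : C.card ≤ F.card := by
  have h1 : ∀ x ∈ C, ∃ B ∈ F, x ∈ B := fun x hx => by simpa using hC hx
  choose! b hb1 hb2 using h1
  refine card_le_card_of_injOn b (fun x hx => hb1 x hx) ?_
  intro x hx y hy hxy
  have h2 := hb2 x hx
  have h3 := hb2 y hy
  rw [← hxy] at h3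
  rcases hch x hx y hy with h | h
  · exact hF _ (hb1 x hx) x h2 y h3 h
  · exact (hF _ (hb1 x hx) y h3 x h2 h).symm

theorem main (hM : S_MAINM) (hS : S_SLOTS) (hA : S_SADD) : S_BLOCK := by
  intro K t Pi hPi α _ _ g N0 hg hno
  have hAne : (univ.filter fun A : Finset α => Anti A).Nonempty :=
    ⟨∅, by rw [mem_filter]; exact ⟨mem_univ _, by intro x hx; simp at hx⟩⟩
  obtain ⟨A, hAA, hmax⟩ := exists_max_image _ card hAne
  rw [mem_filter] at hAA
  have hAanti : Anti A := hAA.2
  have hmax' : ∀ B : Finset α, Anti B → B.card ≤ A.card := fun B hB =>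
    hmax B (by rw [mem_filter]; exact ⟨mem_univ _, hB⟩)
  by_cases hcase : A.card ≤ N0
  · exact Or.inl (case1 hS N0 fun B hB => (hmax' B hB).trans hcase)
  right
  push Not at hcase
  set D : Finset α := univ.filter fun x => ∃ a ∈ A, x < a with hD
  set U : Finset α := univ.filter fun x => ∃ a ∈ A, a < x with hU
  have memD : ∀ x, x ∈ D ↔ ∃ a ∈ A, x < a := fun x => by rw [hD, mem_filter]; simp
  have memU : ∀ x, x ∈ U ↔ ∃ a ∈ A, a < x := fun x => by rw [hU, mem_filter]; simp
  have hAD : ∀ x ∈ A, x ∉ D := by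
    intro x hx h
    obtain ⟨a, ha, hxa⟩ := (memD x).1 h
    exact hxa.ne (hAanti x hx a ha hxa.le)
  have hAU : ∀ x ∈ A, x ∉ U := by
    intro x hx h
    obtain ⟨a, ha, hxa⟩ := (memU x).1 h
    exact hxa.ne (hAanti a ha x hx hxa.le)
  have hDU : Disjoint D U := by
    rw [disjoint_left]
    intro x h1 h2
    obtain ⟨a, ha, hxa⟩ := (memD x).1 h1
    obtain ⟨b, hb, hbx⟩ := (memU x).1 h2
    have h3 := hbx.trans hxa
    exact h3.ne (hAanti b hb a ha h3.le)
  have hrest : ∀ x, x ∉ D → x ∉ U → x ∈ A := by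
    intro x h1 h2
    by_contra hx
    have h3 : Anti (insert x A) := by
      intro y hy z hz hyz
      rcases mem_insert.1 hy with h | h
      · rcases mem_insert.1 hz with h' | h'
        · rw [h, h']
        · by_contra hne
          exact h1 (h ▸ (memD _).2 ⟨z, h', lt_of_le_of_ne hyz hne⟩)
      · rcases mem_insert.1 hz with h' | h'
        · by_contra hne
          exact h2 (h' ▸ (memU _).2 ⟨y, h, lt_of_le_of_ne hyz hne⟩)
        · exact hAanti y h z h' hyz
    have h4 := hmax' _ h3
    rw [card_insert_of_notMem hx] at h4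
    omega
  have hsplit : Split D U := by
    refine ⟨fun x y hxy hy => ?_, fun x y hxy hx => ?_, hDU, fun a b h1 h2 h3 h4 hab =>
      hAanti a (hrest a h1 h2) b (hrest b h3 h4) hab⟩
    · obtain ⟨a, ha, hya⟩ := (memD y).1 hy
      exact (memD x).2 ⟨a, ha, hxy.trans_lt hya⟩
    · obtain ⟨a, ha, hxa⟩ := (memU x).1 hx
      exact (memU y).2 ⟨a, ha, hxa.trans_le hxy⟩
  obtain ⟨F, hFK, hF1, hF2⟩ := family K g hg hno (univ \ A)
  set P' : Finset α := F.biUnion id with hP'
  have hPcard : P'.card ≤ K * g := by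
    calc P'.card ≤ ∑ B ∈ F, (id B).card := card_biUnion_le
      _ = ∑ B ∈ F, g := sum_congr rfl fun B hB => (hF1 B hB).2.2
      _ = F.card * g := by rw [sum_const, smul_eq_mul]
      _ ≤ K * g := Nat.mul_le_mul_right _ hFK
  obtain ⟨f1, hf1, him1⟩ := enum (D ∩ P')
  obtain ⟨f2, hf2, him2⟩ := enum (U ∩ P')
  have hm1 : ∀ i, f1 i ∈ D ∩ P' := fun i => by rw [← him1]; exact mem_image_of_mem _ (mem_univ i)
  have hm2 : ∀ i, f2 i ∈ U ∩ P' := fun i => by rw [← him2]; exact mem_image_of_mem _ (mem_univ i)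
  obtain ⟨F1, hF1p, π1, hπ1, hinc1, hprof1⟩ := (hPi (D ∩ P').card).2.2 α f1 hf1 (by
    intro C hC hch
    rw [him1] at hC
    exact (chain_card (fun B hB => (hF1 B hB).2.1) (hC.trans inter_subset_right) hch).trans hFK)
  obtain ⟨F2, hF2p, π2, hπ2, hinc2, hprof2⟩ := (hPi (U ∩ P').card).2.2 α f2 hf2 (by
    intro C hC hch
    rw [him2] at hC
    exact (chain_card (fun B hB => (hF1 B hB).2.1) (hC.trans inter_subset_right) hch).trans hFK)
  rw [him1] at hF1p
  rw [him2] at hF2p
  obtain ⟨fa, hfa, hima⟩ := enum A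
  have hma : ∀ i, fa i ∈ A := fun i => by rw [← hima]; exact mem_image_of_mem _ (mem_univ i)
  refine ⟨(D ∩ P').card, (U ∩ P').card, fun i => fa (Fin.castLE hcase i), f1, f2,
    (card_le_card inter_subset_right).trans hPcard, (card_le_card inter_subset_right).trans hPcard,
    fun i j h => Fin.castLE_injective _ (hfa h), hf1, hf2, fun i j h => ?_, fun i j h => ?_,
    fun i j h => ?_, fun i j hij => ?_, π1, hπ1, π2, hπ2, hinc1, hinc2, fun N1 hN1 => ?_⟩
  · exact hAD _ (hma _) (h ▸ (mem_inter.1 (hm1 j)).1)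
  · exact hAU _ (hma _) (h ▸ (mem_inter.1 (hm2 j)).1)
  · exact disjoint_left.1 hDU (mem_inter.1 (hm1 i)).1 (h ▸ (mem_inter.1 (hm2 j)).1)
  · have hne : fa (Fin.castLE hcase i) ≠ fa (Fin.castLE hcase j) := fun h =>
      hij (Fin.castLE_injective _ (hfa h))
    exact ⟨fun h => hne (hAanti _ (hma _) _ (hma _) h),
      fun h => hne (hAanti _ (hma _) _ (hma _) h).symm⟩
  · have hsch : Sch N1 (D ∩ P') (U ∩ P') := hM α _ _ F1 F2 N1 hF1p hF2p (by omega)
    set R : Finset α := (univ \ A) \ P' with hR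
    obtain ⟨u1, hu1, hc1⟩ := Pool.Agent.H643R2.ChainDec.dilworth_finset _ g (D ∩ R) rfl
      (fun S hS hSA => hF2 S (hS.trans inter_subset_right) hSA)
    obtain ⟨u2, hu2, hc2⟩ := Pool.Agent.H643R2.ChainDec.dilworth_finset _ g (U ∩ R) rfl
      (fun S hS hSA => hF2 S (hS.trans inter_subset_right) hSA)
    have h1 := addD hA (D ∩ R) u1 hc1 hsch g
    rw [filter_all hu1] at h1
    have h2 := addU hA (U ∩ R) u2 hc2 h1 g
    rw [filter_all hu2] at h2
    have e1 : D ∩ P' ∪ D ∩ R = D := by
      ext x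
      simp only [mem_union, mem_inter, hR, mem_sdiff, mem_univ, true_and]
      constructor
      · rintro (h | h)
        · exact h.1
        · exact h.1
      · intro h
        by_cases hx : x ∈ P'
        · exact Or.inl ⟨h, hx⟩
        · exact Or.inr ⟨h, fun ha => hAD x ha h, hx⟩
    have e2 : U ∩ P' ∪ U ∩ R = U := by
      ext x
      simp only [mem_union, mem_inter, hR, mem_sdiff, mem_univ, true_and]
      constructor
      · rintro (h | h)
        · exact h.1
        · exact h.1
      · intro h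
        by_cases hx : x ∈ P'
        · exact Or.inl ⟨h, hx⟩
        · exact Or.inr ⟨h, fun ha => hAU x ha h, hx⟩
    rw [e1, e2] at h2
    have h3 := hS α _ D U hsplit h2
    rw [show N1 + 2 * g + 2 = N1 + g + g + 2 by ring]
    exact h3

end main

end

end Pool.Agent.W371.RD.Block
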